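import Mathlib
import Pool.Agent.Helper87.DV.Final

set_option autoImplicit false

namespace Pool.Agent.Results.MP_295d38_ag.GradedMaps

open MvPolynomial

/-- The self-map of `𝔸ᴺ(ℂ) = ℂᴺ` given by `N` polynomials with rational coefficients. -/
noncomputable def polyMap {N : ℕ} (Φ : Fin N → MvPolynomial (Fin N) ℚ) (x : Fin N → ℂ) :
    Fin N → ℂ :=
  fun i => aeval x (Φ i)

/-- The return set `{n : Φⁿ(α) ∈ V}` for the closed subvariety `V` of `𝔸ᴺ` over `ℂ` cut out by the
polynomials of the set `V`. -/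
def returnSet {N : ℕ} (Φ : Fin N → MvPolynomial (Fin N) ℚ) (α : Fin N → ℂ)
    (V : Set (MvPolynomial (Fin N) ℂ)) : Set ℕ :=
  {n | ∀ F ∈ V, eval ((polyMap Φ)^[n] α) F = 0}

/-- The polynomial self-maps `(Φ₁, …, Φ_N)` of `𝔸ᴺ` over `ℚ` with `deg Φᵢ ≤ dᵢ` for all `i`, all of
whose coefficients have height at most `B`: in lowest terms the numerator is in `[-B, B]` and the
denominator is at most `B`. -/
def box {N : ℕ} (d : Fin N → ℕ) (B : ℕ) : Set (Fin N → MvPolynomial (Fin N) ℚ) :=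
  {Φ | ∀ i, (Φ i).totalDegree ≤ d i ∧
    ∀ s, |(coeff s (Φ i)).num| ≤ (B : ℤ) ∧ (coeff s (Φ i)).den ≤ B}

/-- The closed subvariety cut out by `V` is not the whole space. -/
def Proper {N : ℕ} (V : Set (MvPolynomial (Fin N) ℂ)) : Prop := ∃ F ∈ V, F ≠ 0

/-- **The dynamical Mordell-Lang conjecture for one hundred percent of the polynomial self-maps of
affine `N`-space with one component of larger degree than the others**, over `ℚ`, in every
dimension `N = m + 1` and for all degrees `d₁, …, d_N` with `1 ≤ dᵢ < d_N` for `i < N`: for all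
starting points over a finitely generated field `L` and all closed subvarieties `V` of `𝔸ᴺ` over
`ℂ`, except for `𝔸ᴺ` itself, the return set is finite. -/
theorem result (m : ℕ) (d : Fin (m + 1) → ℕ)
    (hd : ∀ i : Fin m, 1 ≤ d i.castSucc ∧ d i.castSucc < d (Fin.last m))
    (hd2 : 2 ≤ d (Fin.last m)) (A : Finset ℂ) (ε : ℝ) (hε : 0 < ε) :
    ∃ K : ℕ, ∀ B : ℕ, K ≤ B → (box d B).Finite ∧
      (1 - ε) * ((box d B).ncard : ℝ) ≤
        (({Φ ∈ box d B | ∀ α : Fin (m + 1) → ℂ,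
          (∀ i, α i ∈ Subfield.closure (A : Set ℂ)) →
            ∀ V : Set (MvPolynomial (Fin (m + 1)) ℂ), Proper V →
              (returnSet Φ α V).Finite}).ncard : ℝ) := by
  obtain ⟨K, h⟩ := Pool.Agent.Helper87.DV.dv_main (fun i => (hd i).1) (fun i => (hd i).2) hd2
    A ε hε
  refine ⟨K, fun B hB => ?_⟩
  obtain ⟨hfin, h1⟩ := h B hB
  have hbox : box d B = Pool.Agent.Helper87.DV.vbox m d B := rfl
  rw [← hbox] at hfin h1
  refine ⟨hfin, h1.trans (Nat.cast_le.2 (Set.ncard_le_ncard ?_ (hfin.subset fun Φ hΦ => hΦ.1)))⟩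
  rintro Φ ⟨hΦ, hC⟩
  refine ⟨hΦ, fun α hα V hV => ?_⟩
  obtain ⟨F, hFV, hF0⟩ := hV
  have hmap : Pool.Agent.Helper86.MQ.pm (Pool.Agent.Helper87.MQ.toC Φ) = polyMap Φ := by
    funext x i
    simp only [polyMap, Pool.Agent.Helper86.MQ.pm, Pool.Agent.Helper87.MQ.toC]
    rw [eval_map, aeval_def]
  have h2 := hC α hα F hF0
  rw [hmap] at h2
  exact h2.subset fun n hn => hn F hFV

end Pool.Agent.Results.MP_295d38_ag.GradedMaps
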