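import Pool.Agent.Helper87.LS.Final

/-!
Translation surfaces whose affine symmetries contain a lattice: the directions whose linear flow
is isomorphic to the flow in a given direction form a Lebesgue null set.
-/

open MeasureTheory Pool.Agent.Helper87.LS

namespace Pool.Agent.Helper87.Reserve.LatticeSurfaces

theorem result (S : Surf) (Γ : Subgroup (ℂ ≃ₗ[ℝ] ℂ)) (hΓ : IsLattice Γ)
    (hS : ∀ A ∈ Γ, S.IsAffine A) (θ₀ : ℝ) : volume {θ : ℝ | S.FlowIso θ θ₀} = 0 :=
  main S Γ hΓ hS θ₀

end Pool.Agent.Helper87.Reserve.LatticeSurfaces
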