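import Mathlib
import Pool.Agent.Helper87.RR.Main
import Pool.Agent.Helper26.RR.Term

set_option autoImplicit false

namespace Pool.Agent.Results.MP_295d38_ag.NonlinearSML

open MvPolynomial

/-- The polynomials over `ℚ` in `N` variables of degree at most `d` all of whose coefficients have
height at most `B`: in lowest terms the numerator is in `[-B, B]` and the denominator is at
most `B`. -/
def box (N d B : ℕ) : Set (MvPolynomial (Fin N) ℚ) :=
  {f | f.totalDegree ≤ d ∧ ∀ s, |(coeff s f).num| ≤ (B : ℤ) ∧ (coeff s f).den ≤ B}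

/-- The point `(a_n, …, a_{n+N-1})` of `𝔸ᴺ(ℂ) = ℂᴺ`. -/
def window (N : ℕ) (a : ℕ → ℂ) (n : ℕ) : Fin N → ℂ := fun i => a (n + i)

/-- The sequence `a` satisfies the recurrence `a_{n+N} = f(a_n, …, a_{n+N-1})` for all `n`. -/
def Solves {N : ℕ} (f : MvPolynomial (Fin N) ℚ) (a : ℕ → ℂ) : Prop :=
  ∀ n, a (n + N) = aeval (window N a n) f

/-- The set of the `n` for which `(a_n, …, a_{n+N-1})` lies in the closed subvariety of `𝔸ᴺ` over
`ℂ` cut out by the polynomials of the set `V`. -/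
def returnSet {N : ℕ} (a : ℕ → ℂ) (V : Set (MvPolynomial (Fin N) ℂ)) : Set ℕ :=
  {n | ∀ F ∈ V, eval (window N a n) F = 0}

/-- The closed subvariety cut out by `V` is not the whole space. -/
def Proper {N : ℕ} (V : Set (MvPolynomial (Fin N) ℂ)) : Prop := ∃ F ∈ V, F ≠ 0

/-- **The nonlinear Skolem-Mahler-Lech theorem for one hundred percent of the recurrences**
`a_{n+N} = f(a_n, …, a_{n+N-1})` of every order `N` and every degree `d ≥ 2` over `ℚ`: for all
solutions with initial values in a finitely generated field `L` and all closed subvarieties `V` of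
`𝔸ᴺ` over `ℂ`, except for `𝔸ᴺ` itself, only finitely many of the points `(a_n, …, a_{n+N-1})` lie
in `V`. -/
theorem result (N : ℕ) (hN : 1 ≤ N) (d : ℕ) (hd : 2 ≤ d) (A : Finset ℂ) (ε : ℝ) (hε : 0 < ε) :
    ∃ K : ℕ, ∀ B : ℕ, K ≤ B → (box N d B).Finite ∧
      (1 - ε) * ((box N d B).ncard : ℝ) ≤
        (({f ∈ box N d B | ∀ a : ℕ → ℂ, Solves f a →
          (∀ i < N, a i ∈ Subfield.closure (A : Set ℂ)) →
            ∀ V : Set (MvPolynomial (Fin N) ℂ), Proper V → (returnSet a V).Finite}).ncard : ℝ) := by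
  obtain ⟨m, rfl⟩ : ∃ m, N = m + 1 := ⟨N - 1, by omega⟩
  obtain ⟨K, h⟩ := Pool.Agent.Helper87.RR.rr_main m d hd
    (fun _ _ _ hf ha hg _ hF => Pool.Agent.Helper26.RR.term hd hf ha hg hF) A ε hε
  refine ⟨K, fun B hB => ?_⟩
  obtain ⟨hfin, h1⟩ := h B hB
  refine ⟨hfin, h1.trans (Nat.cast_le.2 (Set.ncard_le_ncard ?_ (hfin.subset fun f hf => hf.1)))⟩
  rintro f ⟨hf, hC⟩
  refine ⟨hf, fun a ha hL V hV => ?_⟩
  obtain ⟨F, hFV, hF0⟩ := hV
  have h2 := hC (fun i => a i) (fun i => hL i i.2) F hF0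
  refine h2.subset fun n hn => ?_
  have h3 := Pool.Agent.Helper87.RR.pm_toC_iterate f a ha n
  change eval ((Pool.Agent.Helper86.MQ.pm (Pool.Agent.Helper87.MQ.toC
    (Pool.Agent.Helper26.RR.sh f)))^[n] (fun i => a i)) F = 0
  rw [h3]
  exact hn F hFV

end Pool.Agent.Results.MP_295d38_ag.NonlinearSML
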