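import Mathlib
import Pool.Agent.Helper87.DMLP.StatAll

set_option autoImplicit false

namespace Pool.Agent.Results.MP_295d38_ag.StatDML

open MvPolynomial

/-- The self-map of `𝔸ᴺ(ℂ) = ℂᴺ` given by `N` polynomials with integer coefficients. -/
noncomputable def polyMap {N : ℕ} (Φ : Fin N → MvPolynomial (Fin N) ℤ) (x : Fin N → ℂ) :
    Fin N → ℂ :=
  fun i => aeval x (Φ i)

/-- The return set `{n : Φⁿ(α) ∈ V}` for the closed subvariety `V` of `𝔸ᴺ` over `ℂ` cut out by the
polynomials of the set `V`. -/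
def returnSet {N : ℕ} (Φ : Fin N → MvPolynomial (Fin N) ℤ) (α : Fin N → ℂ)
    (V : Set (MvPolynomial (Fin N) ℂ)) : Set ℕ :=
  {n | ∀ F ∈ V, eval ((polyMap Φ)^[n] α) F = 0}

/-- The polynomial self-maps of `𝔸ᴺ` over `ℤ` of degree at most `d` with all coefficients
in `[-B, B]`. -/
def box (N d B : ℕ) : Set (Fin N → MvPolynomial (Fin N) ℤ) :=
  {Φ | ∀ i, (Φ i).totalDegree ≤ d ∧ ∀ s, |coeff s (Φ i)| ≤ (B : ℤ)}

/-- The conclusion of the dynamical Mordell-Lang conjecture for `Φ`, the starting point `α` and every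
closed subvariety, with one common difference `L` for all infinite progressions. -/
def DMLWith {N : ℕ} (L : ℕ) (Φ : Fin N → MvPolynomial (Fin N) ℤ) (α : Fin N → ℂ) : Prop :=
  ∀ V : Set (MvPolynomial (Fin N) ℂ), ∃ E T : Finset ℕ,
    returnSet Φ α V = {n : ℕ | n ∈ E ∨ ∃ a ∈ T, ∃ k : ℕ, n = a + L * k}

theorem returnSet_eq {N : ℕ} (Φ : Fin N → MvPolynomial (Fin N) ℤ) (α : Fin N → ℂ)
    (V : Set (MvPolynomial (Fin N) ℂ)) :
    returnSet Φ α V = Pool.Agent.Helper87.DMLP.returnSet Φ α V := by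
  have hmap : polyMap Φ =
      Pool.Agent.Helper87.DMLP.evalMap (Pool.Agent.Helper87.DMLP.baseMap ℂ Φ) := by
    funext x i
    simp only [polyMap, Pool.Agent.Helper87.DMLP.evalMap, Pool.Agent.Helper87.DMLP.baseMap]
    rw [eval_map, aeval_def]
    rfl
  ext n
  simp only [returnSet, Pool.Agent.Helper87.DMLP.returnSet, hmap]

/-- **The dynamical Mordell-Lang conjecture for one hundred percent of the polynomial self-maps of
affine `N`-space over the integers, `N = 3` or `4`.** For every starting point `α` over the finitely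
generated subring of `ℂ` generated by `A` and all large `d`, `B`, at most a proportion `ε` of the
maps in the box fails to satisfy the conclusion for all subvarieties; if `N = 3`, at most a
proportion `ε` of the maps fails to satisfy it for all `α` at once. -/
theorem result (N : ℕ) (hN : N = 3 ∨ N = 4) (A : Finset ℂ) (ε : ℝ) (hε : 0 < ε) :
    ∃ L K : ℕ, 0 < L ∧ ∀ d B : ℕ, K ≤ d → K ≤ B → (box N d B).Finite ∧
      (∀ α : Fin N → ℂ, (∀ i, α i ∈ Subring.closure (A : Set ℂ)) →
        (1 - ε) * ((box N d B).ncard : ℝ) ≤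
          (({Φ ∈ box N d B | DMLWith L Φ α}).ncard : ℝ)) ∧
      (N = 3 → (1 - ε) * ((box N d B).ncard : ℝ) ≤
        (({Φ ∈ box N d B | ∀ α : Fin N → ℂ, (∀ i, α i ∈ Subring.closure (A : Set ℂ)) →
          DMLWith L Φ α}).ncard : ℝ)) := by
  rcases hN with rfl | rfl
  · obtain ⟨L, K, hL, h⟩ := Pool.Agent.Helper87.DMLP.stat_three_all A ε hε
    refine ⟨L, K, hL, fun d B hd hB => ⟨Pool.Agent.Helper87.DML.boxSet_finite d B, ?_⟩⟩
    have h1 := h d B hd hB
    simp only [← returnSet_eq] at h1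
    refine ⟨fun α hα => ?_, fun _ => h1⟩
    refine h1.trans ?_
    have hsub : {Φ ∈ box 3 d B | ∀ α : Fin 3 → ℂ, (∀ i, α i ∈ Subring.closure (A : Set ℂ)) →
        DMLWith L Φ α} ⊆ {Φ ∈ box 3 d B | DMLWith L Φ α} :=
      fun Φ hΦ => ⟨hΦ.1, hΦ.2 α hα⟩
    exact_mod_cast Set.ncard_le_ncard hsub
      ((Pool.Agent.Helper87.DML.boxSet_finite d B).subset (fun Φ hΦ => hΦ.1))
  · obtain ⟨L, K, hL, h⟩ := Pool.Agent.Helper87.DMLP.stat_four_pt A ε hε
    refine ⟨L, K, hL, fun d B hd hB => ⟨Pool.Agent.Helper87.DML.boxSet_finite d B, ?_,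
      fun h => absurd h (by norm_num)⟩⟩
    intro α hα
    have h1 := h d B hd hB α hα
    simp only [← returnSet_eq] at h1
    exact h1

end Pool.Agent.Results.MP_295d38_ag.StatDML
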