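import Mathlib
import Pool.Agent.Helper87.DMLP.StatMain

set_option autoImplicit false

namespace Pool.Agent.Results.MP_295d38_ag.StatDML3

open MvPolynomial

/-- The self-map of `𝔸³(ℂ) = ℂ³` given by three polynomials with integer coefficients. -/
noncomputable def polyMap (Φ : Fin 3 → MvPolynomial (Fin 3) ℤ) (x : Fin 3 → ℂ) : Fin 3 → ℂ :=
  fun i => aeval x (Φ i)

/-- The return set `{n : Φⁿ(α) ∈ V}` for the closed subvariety `V` of `𝔸³` over `ℂ` cut out by the
polynomials of the set `V`. -/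
def returnSet (Φ : Fin 3 → MvPolynomial (Fin 3) ℤ) (α : Fin 3 → ℂ)
    (V : Set (MvPolynomial (Fin 3) ℂ)) : Set ℕ :=
  {n | ∀ F ∈ V, eval ((polyMap Φ)^[n] α) F = 0}

/-- The polynomial self-maps of `𝔸³` over `ℤ` of degree at most `d` with all coefficients
in `[-B, B]`. -/
def box (d B : ℕ) : Set (Fin 3 → MvPolynomial (Fin 3) ℤ) :=
  {Φ | ∀ i, (Φ i).totalDegree ≤ d ∧ ∀ s, |coeff s (Φ i)| ≤ (B : ℤ)}

/-- The subring of `ℂ` generated by the coordinates of `α` embeds into the `q`-adic integers. -/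
def Embeds (q : ℕ) [Fact q.Prime] (α : Fin 3 → ℂ) : Prop :=
  ∃ ι : Subring.closure (Set.range α) →+* ℤ_[q], Function.Injective ι

/-- The conclusion of the dynamical Mordell-Lang conjecture for `Φ`, every starting point `α` with
`Embeds q α` and every subvariety, with one common difference `L` for all infinite progressions. -/
def DMLWith (q L : ℕ) [Fact q.Prime] (Φ : Fin 3 → MvPolynomial (Fin 3) ℤ) : Prop :=
  ∀ α : Fin 3 → ℂ, Embeds q α → ∀ V : Set (MvPolynomial (Fin 3) ℂ),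
    ∃ E A : Finset ℕ, returnSet Φ α V = {n : ℕ | n ∈ E ∨ ∃ a ∈ A, ∃ k : ℕ, n = a + L * k}

/-- Every integer point satisfies `Embeds`. -/
theorem embeds_intCast (q : ℕ) [Fact q.Prime] (α : Fin 3 → ℤ) : Embeds q (fun i => (α i : ℂ)) := by
  have hinj : Function.Injective (Int.castRingHom ℂ) := Int.cast_injective
  have hle : Subring.closure (Set.range (fun i => (α i : ℂ))) ≤ (Int.castRingHom ℂ).range := by
    rw [Subring.closure_le]
    rintro _ ⟨i, rfl⟩
    exact ⟨α i, rfl⟩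
  let e : ℤ ≃+* (Int.castRingHom ℂ).range := RingEquiv.ofBijective (Int.castRingHom ℂ).rangeRestrict
    ⟨fun a b h => hinj (congrArg Subtype.val h), (Int.castRingHom ℂ).rangeRestrict_surjective⟩
  refine ⟨(Int.castRingHom ℤ_[q]).comp ((e.symm : _ →+* ℤ).comp (Subring.inclusion hle)), ?_⟩
  refine Function.Injective.comp (g := Int.castRingHom ℤ_[q]) Int.cast_injective ?_
  exact e.symm.injective.comp (Subring.inclusion_injective hle)

/-- **The dynamical Mordell-Lang conjecture holds for one hundred percent of the polynomial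
self-maps of affine three-space over the integers.** -/
theorem result (Pri : Set ℕ) (hPri : ∀ q ∈ Pri, q.Prime)
    (hdiv : ¬ Summable (fun q : Pri => (1 : ℝ) / (q : ℕ))) (ε : ℝ) (hε : 0 < ε) :
    ∃ (P : Finset ℕ) (L K : ℕ), (∀ q ∈ P, q ∈ Pri) ∧ 0 < L ∧ ∀ d B : ℕ, K ≤ d → K ≤ B →
      (box d B).Finite ∧
      (1 - ε) * ((box d B).ncard : ℝ) ≤
        (({Φ ∈ box d B | ∃ q ∈ P, ∃ _ : Fact q.Prime, DMLWith q L Φ}).ncard : ℝ) := by
  obtain ⟨P, L, K, hP, hL, h⟩ := Pool.Agent.Helper87.DMLP.stat_three Pri hdiv hPri ε hε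
  refine ⟨P, L, K, hP, hL, fun d B hd hB => ⟨Pool.Agent.Helper87.DML.boxSet_finite d B, ?_⟩⟩
  refine (h d B hd hB).trans ?_
  have hsub : ({Φ | Φ ∈ Pool.Agent.Helper87.DML.boxSet (Fin 3) d B ∧
      ∃ q ∈ P, ∃ _ : Fact q.Prime, 3 ≤ q ∧ Pool.Agent.Helper87.DMLP.PadicDML q L Φ} :
      Set (Fin 3 → MvPolynomial (Fin 3) ℤ)) ⊆
      {Φ ∈ box d B | ∃ q ∈ P, ∃ _ : Fact q.Prime, DMLWith q L Φ} := by
    rintro Φ ⟨h1, q, hq, hF, _, h3⟩
    refine ⟨h1, q, hq, hF, ?_⟩
    rintro α ⟨ι, hι⟩ V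
    obtain ⟨E, A, hEA⟩ := h3 _ ι hι α (fun i => Subring.subset_closure (Set.mem_range_self i)) V
    refine ⟨E, A, ?_⟩
    rw [← hEA]
    have hmap : polyMap Φ =
        Pool.Agent.Helper87.DMLP.evalMap (Pool.Agent.Helper87.DMLP.baseMap ℂ Φ) := by
      funext x i
      simp only [polyMap, Pool.Agent.Helper87.DMLP.evalMap, Pool.Agent.Helper87.DMLP.baseMap]
      rw [eval_map, aeval_def]
      rfl
    ext n
    simp only [returnSet, Pool.Agent.Helper87.DMLP.returnSet, hmap]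
  exact_mod_cast Set.ncard_le_ncard hsub
    ((Pool.Agent.Helper87.DML.boxSet_finite d B).subset (fun Φ hΦ => hΦ.1))

end Pool.Agent.Results.MP_295d38_ag.StatDML3
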