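import Mathlib
import Pool.Agent.Helper87.AP.Main

set_option autoImplicit false

namespace Pool.Agent.Results.MP_295d38_ag.UniformBound

open MvPolynomial

/-- The self-map of `𝔸ᴺ(ℂ) = ℂᴺ` given by `N` polynomials with rational coefficients. -/
noncomputable def polyMap {N : ℕ} (Φ : Fin N → MvPolynomial (Fin N) ℚ) (x : Fin N → ℂ) :
    Fin N → ℂ :=
  fun i => aeval x (Φ i)

/-- The return set `{n : Φⁿ(α) ∈ V}` for the closed subvariety `V` of `𝔸ᴺ` over `ℂ` cut out by the
polynomials of the set `V`. -/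
def returnSet {N : ℕ} (Φ : Fin N → MvPolynomial (Fin N) ℚ) (α : Fin N → ℂ)
    (V : Set (MvPolynomial (Fin N) ℂ)) : Set ℕ :=
  {n | ∀ F ∈ V, eval ((polyMap Φ)^[n] α) F = 0}

/-- The polynomial self-maps `(Φ₁, …, Φ_N)` of `𝔸ᴺ` over `ℚ` with `deg Φᵢ ≤ dᵢ` for all `i`, all of
whose coefficients have height at most `B`: in lowest terms the numerator is in `[-B, B]` and the
denominator is at most `B`. -/
def box {N : ℕ} (d : Fin N → ℕ) (B : ℕ) : Set (Fin N → MvPolynomial (Fin N) ℚ) :=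
  {Φ | ∀ i, (Φ i).totalDegree ≤ d i ∧
    ∀ s, |(coeff s (Φ i)).num| ≤ (B : ℤ) ∧ (coeff s (Φ i)).den ≤ B}

/-- The closed subvariety of `𝔸ᴺ` over `ℂ` cut out by `V` lies in a hypersurface of degree at
most `D`. -/
def InHypersurface {N : ℕ} (D : ℕ) (V : Set (MvPolynomial (Fin N) ℂ)) : Prop :=
  ∃ F : MvPolynomial (Fin N) ℂ, F ≠ 0 ∧ F.totalDegree ≤ D ∧
    ∀ x : Fin N → ℂ, (∀ G ∈ V, eval x G = 0) → eval x F = 0

/-- The degree `[L(α) : L]` of the point `α` over the subfield `L` of `ℂ`; it is `0` if `α` is not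
algebraic over `L`. -/
noncomputable def deg {N : ℕ} (L : Subfield ℂ) (α : Fin N → ℂ) : ℕ :=
  Module.finrank L (IntermediateField.adjoin L (Set.range α))

/-- **The uniform dynamical Mordell-Lang conjecture for one hundred percent of the polynomial
self-maps of affine `N`-space with one component of larger degree than the others**, over `ℚ`, in
every dimension `N = m + 1` and for all degrees `d₁, …, d_N` with `1 ≤ dᵢ < d_N` for `i < N`: the
number of returns to a closed subvariety `V` of `𝔸ᴺ` over `ℂ`, `V ≠ 𝔸ᴺ`, is bounded by a number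
which only depends on the map and on the degree of a hypersurface which contains `V`, for all
starting points which are algebraic over the finitely generated field `L = ℚ(A)` and whose degree
over `L` is not divisible by `d_N`. -/
theorem result (m : ℕ) (d : Fin (m + 1) → ℕ)
    (hd : ∀ i : Fin m, 1 ≤ d i.castSucc ∧ d i.castSucc < d (Fin.last m))
    (hd2 : 2 ≤ d (Fin.last m)) (A : Finset ℂ) (ε : ℝ) (hε : 0 < ε) :
    ∃ K : ℕ, ∀ B : ℕ, K ≤ B → (box d B).Finite ∧
      (1 - ε) * ((box d B).ncard : ℝ) ≤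
        (({Φ ∈ box d B | ∀ D : ℕ, ∃ C : ℕ, ∀ α : Fin (m + 1) → ℂ,
          ¬ d (Fin.last m) ∣ deg (Subfield.closure (A : Set ℂ)) α →
            ∀ V : Set (MvPolynomial (Fin (m + 1)) ℂ), InHypersurface D V →
              (returnSet Φ α V).encard ≤ C}).ncard : ℝ) := by
  obtain ⟨K, h⟩ := Pool.Agent.Helper87.AP.ap_main (fun i => (hd i).1) (fun i => (hd i).2) hd2
    A ε hε
  refine ⟨K, fun B hB => ?_⟩
  obtain ⟨hfin, h1⟩ := h B hB
  have hbox : box d B = Pool.Agent.Helper87.DV.vbox m d B := rfl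
  rw [← hbox] at hfin h1
  refine ⟨hfin, h1.trans (Nat.cast_le.2 (Set.ncard_le_ncard ?_ (hfin.subset fun Φ hΦ => hΦ.1)))⟩
  rintro Φ ⟨hΦ, hC⟩
  refine ⟨hΦ, fun D => ?_⟩
  obtain ⟨C, hC⟩ := hC D
  refine ⟨C, fun α hα V hV => ?_⟩
  obtain ⟨F, hF0, hFD, hFV⟩ := hV
  have hmap : Pool.Agent.Helper86.MQ.pm (Pool.Agent.Helper87.MQ.toC Φ) = polyMap Φ := by
    funext x i
    simp only [polyMap, Pool.Agent.Helper86.MQ.pm, Pool.Agent.Helper87.MQ.toC]
    rw [eval_map, aeval_def]
  have h2 := hC α hα F hF0 hFD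
  rw [hmap] at h2
  exact (Set.encard_le_encard fun n hn => hFV _ hn).trans h2

end Pool.Agent.Results.MP_295d38_ag.UniformBound
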